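import Mathlib
import Pool.Agent.H772R2.NS.Pub
import Pool.Agent.H772R2.NS.PubBridge
import Pool.Agent.Q176.AN.Pub2
import Pool.Agent.Q176.AN.Main2

open MeasureTheory Set Filter Topology H772R2.NS.Pub Q176.AN
open scoped InnerProductSpace ENNReal

/-- **The convective term and the energy defect.** Let `u` be a weak solution of the Navier-Stokes
equations in an open set `Ω` (no energy inequality is assumed), `D` its energy defect, let `N(τ)`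
be the norm of `(u(τ)·∇)u(τ)` in the dual of `H¹_{0,σ}(Ω)`, and let `0 ≤ s ≤ t ≤ T`.
1. `|D(t) - D(s)| ≤ liminf_{h → ∞} h ∫_{(s,t) ∩ {‖∇u‖ > h}} N dτ`.
2. `D(t) = D(s)` if `N` is in the weak Lebesgue space `L^{2,∞}(s,t)`, or if
   `∫_s^t N ‖∇u‖ / log(e + ‖∇u‖) dτ < ∞`, or if `∫_s^t N² / log²(e + ‖∇u‖) dτ < ∞`.
3. `D(t) = D(s)` in the same three cases with `N(τ)` replaced by the norm in `L^{6/5}(Ω)` of
   `(∇u + c(τ) (∇u)ᵀ) u`, where `c` is an arbitrary function of time. So for almost every time it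
   is enough to control the Lamb vector `ω × u` (`c = -1`), or `2 S u`, `S` the strain (`c = 1`),
   or `(u·∇)u` (`c = 0`), or any other of these vectors.
4. For almost all `τ ∈ (0,T)`, `N(τ)` is at most `‖u(τ)‖²_{L⁴}` and at most `4` times the norm in
   `L^{6/5}(Ω)` of `(∇u + c (∇u)ᵀ) u` for every number `c`. -/
theorem Pool.Agent.Results.MP_a38b17_an.ConvectiveTerm.result
    {Ω : Set R3} (hΩ : IsOpen Ω) {ν T : ℝ} (hν : 0 < ν) (hT : 0 < T)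
    {u : ℝ → L2 Ω R3} {G : ℝ → L2 Ω Mat} {f : ℝ → L2 Ω R3} (hu : IsWeakSolution Ω ν T u G f)
    {s t : ℝ} (hs : 0 ≤ s) (hst : s ≤ t) (ht : t ≤ T) :
    (ENNReal.ofReal |energyDefect ν u G f t - energyDefect ν u G f s|
      ≤ Filter.liminf (fun h : ℝ => ENNReal.ofReal h * ∫⁻ τ in Ioo s t ∩ {τ | h < ‖G τ‖},
        convNorm (u τ)) atTop) ∧
    (((∃ C : ℝ, ∀ l : ℝ, 0 < l →
        volume {τ ∈ Ioo s t | ENNReal.ofReal l < convNorm (u τ)} ≤ ENNReal.ofReal (C / l ^ 2)) ∨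
      (∫⁻ τ in Ioo s t, ENNReal.ofReal (‖G τ‖ / Real.log (Real.exp 1 + ‖G τ‖))
        * convNorm (u τ) ≠ ⊤) ∨
      (∫⁻ τ in Ioo s t, convNorm (u τ) ^ 2
        / ENNReal.ofReal (Real.log (Real.exp 1 + ‖G τ‖) ^ 2) ≠ ⊤)) →
      energyDefect ν u G f t = energyDefect ν u G f s) ∧
    (∀ c : ℝ → ℝ,
      ((∃ C : ℝ, ∀ l : ℝ, 0 < l →
        volume {τ ∈ Ioo s t | ENNReal.ofReal l < lambNorm (c τ) (G τ) (u τ)}
          ≤ ENNReal.ofReal (C / l ^ 2)) ∨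
      (∫⁻ τ in Ioo s t, ENNReal.ofReal (‖G τ‖ / Real.log (Real.exp 1 + ‖G τ‖))
        * lambNorm (c τ) (G τ) (u τ) ≠ ⊤) ∨
      (∫⁻ τ in Ioo s t, lambNorm (c τ) (G τ) (u τ) ^ 2
        / ENNReal.ofReal (Real.log (Real.exp 1 + ‖G τ‖) ^ 2) ≠ ⊤)) →
      energyDefect ν u G f t = energyDefect ν u G f s) ∧
    (∀ᵐ τ ∂(volume.restrict (Ioo 0 T)), convNorm (u τ) ≤ norm4 (u τ) ^ 2 ∧
      ∀ c : ℝ, convNorm (u τ) ≤ 4 * lambNorm c (G τ) (u τ)) := by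
  have hu' := toNS hu
  have hc : ∀ τ, convNorm (u τ) = convN (u τ) := fun τ => convNorm_eq (u τ)
  have hl : ∀ (c τ : ℝ), lambNorm c (G τ) (u τ) = lamb c (G τ) (u τ) := fun _ _ => rfl
  simp only [hc, hl]
  refine ⟨defect_le_conv hΩ hν.le hT hu' hs hst ht, ?_, ?_, ?_⟩
  · rintro (⟨C, hC⟩ | h1 | h2)
    · exact eq_of_N_weak hΩ hν.le hT hu' hs hst ht (c := 1) (by norm_num)
        (pm_le_conv hΩ hu' hs ht) hC
    · exact eq_of_N hΩ hν.le hT hu' hs hst ht (pm_le_conv hΩ hu' hs ht) h1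
    · exact eq_of_N hΩ hν.le hT hu' hs hst ht (pm_le_conv hΩ hu' hs ht)
        (int_of_sq hu' hs ht h2)
  · rintro c (⟨C, hC⟩ | h1 | h2)
    · exact eq_of_N_weak hΩ hν.le hT hu' hs hst ht (c := 4) (by norm_num)
        (pm_le_lamb hΩ hu' hs ht c) hC
    · exact eq_of_N hΩ hν.le hT hu' hs hst ht (pm_le_lamb hΩ hu' hs ht c) h1
    · exact eq_of_N hΩ hν.le hT hu' hs hst ht (pm_le_lamb hΩ hu' hs ht c)
        (int_of_sq hu' hs ht h2)
  · exact ae_bounds hΩ hu'
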