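import Mathlib
import Pool.Agent.H772R2.NS.Pub
import Pool.Agent.H772R2.NS.PubBridge
import Pool.Agent.Q176.AN.Pub
import Pool.Agent.Q176.AN.Main

open MeasureTheory Set Filter Topology H772R2.NS.Pub Q176.AN
open scoped InnerProductSpace ENNReal

/-- **Energy can only be lost if the enstrophy is large in all directions.** Let `u` be a weak
solution of the Navier-Stokes equations in an open set `Ω` (no energy inequality is assumed), `D`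
its energy defect, `M(τ) = (∫_Ω ∂_j u · ∂_k u dx)_{jk}` its enstrophy matrix. For
`0 ≤ s ≤ t ≤ T`:
* `|D(t) - D(s)| ≤ liminf_{h → ∞} h ∫_{(s,t) ∩ {‖∇u‖ > h}} 8 (‖u‖² det M)^{1/4} dτ`;
* `D(t) = D(s)` if `∫_s^t ‖∇u‖ (det M)^{1/4} / log(e + ‖∇u‖) dτ < ∞`;
* `D(t) = D(s)` if `∫_s^t ‖∂_w u‖^{1/2} ‖∇u‖² / log(e + ‖∇u‖) dτ < ∞` for unit vectors `w = w(τ)`
  depending on time in an arbitrary way;
* `D(t) = D(s)` if for almost all `τ ∈ (s,t)` there is a unit vector `w` such that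
  `‖∂_w u(τ)‖ ≤ C log²(e + ‖∇u(τ)‖)`, i.e. if the smallest eigenvalue of `M(τ)` is at most
  `C² log⁴(e + ‖∇u(τ)‖)`;
* `D(t) = D(s)` if `∫_s^t ‖u‖²_{L⁴} ‖∇u‖ / log(e + ‖∇u‖) dτ < ∞`, in particular if
  `∫_s^t ‖u‖⁴_{L⁴} / log²(e + ‖∇u‖) dτ < ∞`.
All norms without index are norms in `L²(Ω)`. -/
theorem Pool.Agent.Results.MP_a38b17_an.EnstrophyMatrix.result
    {Ω : Set R3} (hΩ : IsOpen Ω) {ν T : ℝ} (hν : 0 < ν) (hT : 0 < T)
    {u : ℝ → L2 Ω R3} {G : ℝ → L2 Ω Mat} {f : ℝ → L2 Ω R3} (hu : IsWeakSolution Ω ν T u G f)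
    {s t : ℝ} (hs : 0 ≤ s) (hst : s ≤ t) (ht : t ≤ T) :
    (ENNReal.ofReal |energyDefect ν u G f t - energyDefect ν u G f s|
      ≤ Filter.liminf (fun h : ℝ => ENNReal.ofReal h * ∫⁻ τ in Ioo s t ∩ {τ | h < ‖G τ‖},
        ENNReal.ofReal (8 * (‖u τ‖ ^ 2 * (enstrophyMatrix (G τ)).det) ^ (1 / 4 : ℝ))) atTop) ∧
    (∫⁻ τ in Ioo s t, ENNReal.ofReal (‖G τ‖ * (enstrophyMatrix (G τ)).det ^ (1 / 4 : ℝ)
        / Real.log (Real.exp 1 + ‖G τ‖)) ≠ ⊤ →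
      energyDefect ν u G f t = energyDefect ν u G f s) ∧
    (∀ w : ℝ → R3, (∀ τ, ‖w τ‖ = 1) →
      ∫⁻ τ in Ioo s t, ENNReal.ofReal (‖G τ‖ ^ 2 * Real.sqrt (dirNorm (G τ) (w τ))
        / Real.log (Real.exp 1 + ‖G τ‖)) ≠ ⊤ →
      energyDefect ν u G f t = energyDefect ν u G f s) ∧
    (∀ C : ℝ, (∀ᵐ τ ∂(volume.restrict (Ioo s t)), ∃ w : R3, ‖w‖ = 1 ∧
        dirNorm (G τ) w ≤ C * Real.log (Real.exp 1 + ‖G τ‖) ^ 2) →
      energyDefect ν u G f t = energyDefect ν u G f s) ∧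
    (∫⁻ τ in Ioo s t, ENNReal.ofReal (‖G τ‖ / Real.log (Real.exp 1 + ‖G τ‖))
        * (norm4 (u τ)) ^ 2 ≠ ⊤ →
      energyDefect ν u G f t = energyDefect ν u G f s) ∧
    (∫⁻ τ in Ioo s t, (norm4 (u τ)) ^ 4
        / ENNReal.ofReal (Real.log (Real.exp 1 + ‖G τ‖) ^ 2) ≠ ⊤ →
      energyDefect ν u G f t = energyDefect ν u G f s) := by
  have hu' := toNS hu
  refine ⟨?_, ?_, ?_, ?_, ?_, ?_⟩
  · have h1 := defect_le_det hΩ hν.le hT hu' hs hst ht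
    have h2 : ∀ τ, enstrophyMatrix (G τ) = gramM (G τ) := fun τ => enstrophyMatrix_eq (G τ)
    simp only [h2]
    exact h1
  · intro h0
    have h2 : ∀ τ, enstrophyMatrix (G τ) = gramM (G τ) := fun τ => enstrophyMatrix_eq (G τ)
    simp only [h2] at h0
    exact eq_of_det hΩ hν.le hT hu' hs hst ht h0
  · intro w hw h0
    have h2 : ∀ τ, dirNorm (G τ) (w τ) = ‖dder (w τ) (G τ)‖ := fun τ => dirNorm_eq (G τ) (w τ)
    simp only [h2] at h0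
    exact eq_of_dir hΩ hν.le hT hu' hs hst ht w hw h0
  · intro C hC
    refine eq_of_logsq hΩ hν.le hT hu' hs hst ht (C := C) ?_
    filter_upwards [hC] with τ hτ
    obtain ⟨w, h1, h2⟩ := hτ
    refine ⟨w, h1, ?_⟩
    exact (dirNorm_eq (G τ) w).symm.le.trans h2
  · intro h0
    exact eq_of_four_log hΩ hν.le hT hu' hs hst ht h0
  · intro h0
    exact eq_of_four_four hΩ hν.le hT hu' hs hst ht h0
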